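import Pool.Agent.H95.Smyth.Circle
import Pool.Agent.H25.SmythWeak

/-!
# Smyth's theorem

A polynomial `f` in `ℤ[X]` with `f(0) ≠ 0` which is not reciprocal up to sign has
`M(f) ≥ θ₀ = 1.3247...`, the real root of `x^3 = x + 1`: `M + 1 ≤ M^3`.
(The Blaschke products are those of helper25's weak form, file `H25/SmythWeak`.)
-/

set_option autoImplicit false

open Polynomial N60ffa576 Metric Real
open scoped ComplexConjugate

namespace Pool.Agent.H95.Smyth

open Pool.Agent.H25

/-- the two Blaschke products -/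
theorem exists_UW (f : ℤ[X]) (hl : |f.leadingCoeff| = 1) : ∃ U W : ℂ → ℂ, DiffContOnCl ℂ U (ball 0 1) ∧
      DiffContOnCl ℂ W (ball 0 1) ∧ (∀ z ∈ sphere (0 : ℂ) 1, ‖U z‖ = 1) ∧
      (∀ z ∈ sphere (0 : ℂ) 1, ‖W z‖ = 1) ∧
      (∀ z : ℂ, ‖z‖ ≤ 1 → U z * aeval z f.reverse = W z * aeval z f) ∧
      ‖W 0‖ * mahlerMeasureZ f = 1 := by
  set l : ℤ := f.leadingCoeff with hldef
  have hll : l * l = 1 := by
    rcases (abs_eq (by norm_num : (0:ℤ) ≤ 1)).1 hl with h | h <;> rw [h] <;> norm_num
  have hlC : (l : ℂ) * (l : ℂ) = 1 := by exact_mod_cast hll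
  have hlC0 : (l : ℂ) ≠ 0 := by
    intro h; rw [h] at hlC; norm_num at hlC
  -- the Blaschke products
  set S := croots f with hS
  set S1 := S.filter (fun a => ‖a‖ < 1) with hS1
  set S2 := S.filter (fun a => 1 < ‖a‖) with hS2
  set S0 := S.filter (fun a => ‖a‖ = 1) with hS0
  have hsplit : S = S1 + (S2 + S0) := split3 S
  set P1 : ℂ → ℂ := fun z => (S1.map (fun a => z - a)).prod with hP1
  set Q1 : ℂ → ℂ := fun z => (S1.map (fun a => 1 - conj a * z)).prod with hQ1
  set P2 : ℂ → ℂ := fun z => (S2.map (fun a => z - a)).prod with hP2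
  set Q2 : ℂ → ℂ := fun z => (S2.map (fun a => 1 - conj a * z)).prod with hQ2
  set P0 : ℂ → ℂ := fun z => (S0.map (fun a => z - a)).prod with hP0
  set Q0 : ℂ → ℂ := fun z => (S0.map (fun a => 1 - conj a * z)).prod with hQ0
  set c : ℂ := (S0.map (fun a => -a)).prod with hcdef
  have hf1 : ∀ z, aeval z f = l * (P1 z * (P2 z * P0 z)) := by
    intro z
    rw [aeval_eq_prod, ← hS, hsplit, Multiset.map_add, Multiset.map_add, Multiset.prod_add,
      Multiset.prod_add]
  have hf2 : ∀ z, aeval z f.reverse = l * (Q1 z * (Q2 z * Q0 z)) := by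
    intro z
    rw [reverse_aeval_conj, ← hS, hsplit, Multiset.map_add, Multiset.map_add, Multiset.prod_add,
      Multiset.prod_add]
  have hcQ : ∀ z, c * Q0 z = P0 z := by
    intro z
    rw [hcdef, hQ0, hP0, ← Multiset.prod_map_mul]
    congr 1
    apply Multiset.map_congr rfl
    intro a ha
    have : ‖a‖ = 1 := (Multiset.mem_filter.1 ha).2
    have h3 : a * conj a = 1 := by
      rw [Complex.mul_conj, Complex.normSq_eq_norm_sq, this]; simp
    linear_combination z * h3
  have hcn : ‖c‖ = 1 := by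
    apply mprod_norm_one
    intro a ha
    rw [norm_neg]
    exact (Multiset.mem_filter.1 ha).2
  have hQ1ne : ∀ z : ℂ, ‖z‖ ≤ 1 → Q1 z ≠ 0 := by
    intro z hz h
    rw [hQ1] at h
    simp only [] at h
    rw [Multiset.prod_eq_zero_iff, Multiset.mem_map] at h
    obtain ⟨a, ha, h⟩ := h
    have h3 : ‖a‖ < 1 := (Multiset.mem_filter.1 ha).2
    have h4 : ‖conj a * z‖ = 1 := by
      have : conj a * z = 1 := by linear_combination -h
      rw [this, norm_one]
    rw [norm_mul, Complex.norm_conj] at h4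
    nlinarith [norm_nonneg a, norm_nonneg z]
  have hP2ne : ∀ z : ℂ, ‖z‖ ≤ 1 → P2 z ≠ 0 := by
    intro z hz h
    rw [hP2] at h
    simp only [] at h
    rw [Multiset.prod_eq_zero_iff, Multiset.mem_map] at h
    obtain ⟨a, ha, h⟩ := h
    have h3 : 1 < ‖a‖ := (Multiset.mem_filter.1 ha).2
    have : z = a := by linear_combination h
    rw [this] at hz
    linarith
  set U : ℂ → ℂ := fun z => c * (P1 z / Q1 z) with hU
  set W : ℂ → ℂ := fun z => Q2 z / P2 z with hW
  have hUd : ∀ z : ℂ, ‖z‖ ≤ 1 → DifferentiableAt ℂ U z := by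
    intro z hz
    apply DifferentiableAt.const_mul
    apply DifferentiableAt.fun_div
    · exact differentiableAt_mprod _ (fun a w => w - a) z (fun a _ => by fun_prop)
    · exact differentiableAt_mprod _ (fun a w => 1 - conj a * w) z (fun a _ => by fun_prop)
    · exact hQ1ne z hz
  have hWd : ∀ z : ℂ, ‖z‖ ≤ 1 → DifferentiableAt ℂ W z := by
    intro z hz
    apply DifferentiableAt.fun_div
    · exact differentiableAt_mprod _ (fun a w => 1 - conj a * w) z (fun a _ => by fun_prop)
    · exact differentiableAt_mprod _ (fun a w => w - a) z (fun a _ => by fun_prop)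
    · exact hP2ne z hz
  have hid : ∀ z : ℂ, ‖z‖ ≤ 1 → U z * aeval z f.reverse = W z * aeval z f := by
    intro z hz
    rw [hf1, hf2]
    simp only [hU, hW]
    have e1 := hQ1ne z hz
    have e2 := hP2ne z hz
    have e3 := hcQ z
    field_simp
    linear_combination (P1 z) * (Q2 z) * e3
  have hnorm : ∀ (T : Multiset ℂ) (z : ℂ), ‖z‖ = 1 → ‖(T.map (fun a => z - a)).prod‖ =
      ‖(T.map (fun a => 1 - conj a * z)).prod‖ := by
    intro T z hz
    rw [norm_mprod, norm_mprod, Multiset.map_map, Multiset.map_map]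
    congr 1
    apply Multiset.map_congr rfl
    intro a _
    exact norm_sub_eq hz
  have hU1 : ∀ z ∈ sphere (0 : ℂ) 1, ‖U z‖ = 1 := by
    intro z hz
    have hz1 : ‖z‖ = 1 := by simpa using hz
    have := hnorm S1 z hz1
    have h3 : ‖Q1 z‖ ≠ 0 := norm_ne_zero_iff.2 (hQ1ne z hz1.le)
    simp only [hU]
    rw [norm_mul, norm_div, hcn, one_mul, this]
    exact div_self h3
  have hW1 : ∀ z ∈ sphere (0 : ℂ) 1, ‖W z‖ = 1 := by
    intro z hz
    have hz1 : ‖z‖ = 1 := by simpa using hz
    have := hnorm S2 z hz1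
    have h3 : ‖P2 z‖ ≠ 0 := norm_ne_zero_iff.2 (hP2ne z hz1.le)
    simp only [hW]
    rw [norm_div, ← this]
    exact div_self h3
  have hDC : ∀ V : ℂ → ℂ, (∀ z : ℂ, ‖z‖ ≤ 1 → DifferentiableAt ℂ V z) →
      DiffContOnCl ℂ V (ball 0 1) := by
    intro V hV
    apply DifferentiableOn.diffContOnCl_ball (U := closedBall 0 1) _ subset_rfl
    intro z hz
    exact (hV z (by simpa using hz)).differentiableWithinAt
  have hUD := hDC U hUd
  have hWD := hDC W hWd
  have hWM : ‖W 0‖ * mahlerMeasureZ f = 1 := by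
    have e1 : mahlerMeasureZ f = (S2.map (fun a => ‖a‖)).prod := by
      rw [mmZ_eq, ← hS, hsplit, Multiset.map_add, Multiset.map_add, Multiset.prod_add,
        Multiset.prod_add]
      have : |(f.leadingCoeff : ℝ)| = 1 := by exact_mod_cast hl
      rw [this, one_mul]
      have g1 : (S1.map (fun a => max 1 ‖a‖)).prod = 1 := by
        apply Multiset.prod_eq_one
        intro x hx
        rw [Multiset.mem_map] at hx
        obtain ⟨a, ha, rfl⟩ := hx
        exact max_eq_left (Multiset.mem_filter.1 ha).2.le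
      have g0 : (S0.map (fun a => max 1 ‖a‖)).prod = 1 := by
        apply Multiset.prod_eq_one
        intro x hx
        rw [Multiset.mem_map] at hx
        obtain ⟨a, ha, rfl⟩ := hx
        exact max_eq_left (Multiset.mem_filter.1 ha).2.le
      have g2 : (S2.map (fun a => max 1 ‖a‖)) = (S2.map (fun a => ‖a‖)) := by
        apply Multiset.map_congr rfl
        intro a ha
        exact max_eq_right (Multiset.mem_filter.1 ha).2.le
      rw [g1, g0, g2, one_mul, mul_one]
    have e2 : ‖P2 0‖ = (S2.map (fun a => ‖a‖)).prod := by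
      rw [hP2]
      simp only []
      rw [norm_mprod, Multiset.map_map]
      congr 1
      apply Multiset.map_congr rfl
      intro a _
      simp
    have e3 : Q2 0 = 1 := by
      rw [hQ2]
      simp
    have h3 : ‖P2 0‖ ≠ 0 := norm_ne_zero_iff.2 (hP2ne 0 (by simp))
    simp only [hW]
    rw [norm_div, e3, norm_one, e1, ← e2]
    field_simp
  exact ⟨U, W, hUD, hWD, hU1, hW1, hid, hWM⟩

/-- **Smyth's theorem.** -/
theorem smyth (f : ℤ[X]) (h0 : f.coeff 0 ≠ 0) (h1 : f.reverse ≠ f) (h2 : f.reverse ≠ -f) :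
    mahlerMeasureZ f + 1 ≤ mahlerMeasureZ f ^ 3 := by
  have hf : f ≠ 0 := by
    rintro rfl; simp at h0
  have hM1 : 1 ≤ mahlerMeasureZ f := one_le_mmZ hf
  have big : 2 ≤ mahlerMeasureZ f → mahlerMeasureZ f + 1 ≤ mahlerMeasureZ f ^ 3 := by
    intro h
    nlinarith [mul_nonneg (sub_nonneg.2 h) (sub_nonneg.2 hM1), sq_nonneg (mahlerMeasureZ f)]
  by_cases hl : |f.leadingCoeff| = 1
  swap
  · apply big
    have h3 : 1 ≤ |f.leadingCoeff| := Int.one_le_abs (leadingCoeff_ne_zero.2 hf)
    have h4 : 2 ≤ |f.leadingCoeff| := by omega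
    have h5 : (2 : ℝ) ≤ |(f.leadingCoeff : ℝ)| := by exact_mod_cast h4
    exact h5.trans (lc_le_mmZ f)
  by_cases hc : |f.coeff 0| = 1
  swap
  · apply big
    have h3 : 1 ≤ |f.coeff 0| := Int.one_le_abs h0
    have h4 : 2 ≤ |f.coeff 0| := by omega
    have h5 : (2 : ℝ) ≤ |(f.coeff 0 : ℝ)| := by exact_mod_cast h4
    have h6 := norm_coeff_le_choose_mul_mahlerMeasure 0 (f.map (algebraMap ℤ ℂ))
    simp only [coeff_map, algebraMap_int_eq, eq_intCast, Complex.norm_intCast, Nat.choose_zero_right,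
      Nat.cast_one, one_mul] at h6
    exact h5.trans h6
  obtain ⟨U, W, hU, hW, hU1, hW1, hrel, hWM⟩ := exists_UW f hl
  set l : ℤ := f.leadingCoeff with hldef
  set b : ℤ := f.coeff 0 with hb
  have hll : l * l = 1 := by
    rcases (abs_eq (by norm_num : (0:ℤ) ≤ 1)).1 hl with h | h <;> rw [h] <;> norm_num
  have hbb : b * b = 1 := by
    rcases (abs_eq (by norm_num : (0:ℤ) ≤ 1)).1 hc with h | h <;> rw [h] <;> norm_num
  have hlC : (l : ℂ) * (l : ℂ) = 1 := by exact_mod_cast hll
  have hbC : (b : ℂ) * (b : ℂ) = 1 := by exact_mod_cast hbb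
  -- the constants
  set c : ℝ := ‖W 0‖ with hcdef
  have hc0 : 0 < c := by
    rcases (norm_nonneg (W 0)).eq_or_lt with h | h
    · rw [← hcdef] at h
      rw [← h, zero_mul] at hWM
      exact absurd hWM (by norm_num)
    · exact h
  have hW0 : W 0 ≠ 0 := norm_pos_iff.1 hc0
  set κ : ℂ := (c : ℂ) / W 0 with hκ
  have hκn : ‖κ‖ = 1 := by
    rw [hκ, norm_div, Complex.norm_real, Real.norm_eq_abs, abs_of_pos hc0, ← hcdef]
    exact div_self hc0.ne'
  have hκW : κ * W 0 = c := by
    rw [hκ]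
    field_simp
  have hln : ‖(l : ℂ)‖ = 1 := by
    rw [Complex.norm_intCast]; exact_mod_cast hl
  have hbn : ‖(b : ℂ)‖ = 1 := by
    rw [Complex.norm_intCast]; exact_mod_cast hc
  have hrev0 : aeval (0 : ℂ) f.reverse = l := by
    rw [aeval_def, eval₂_at_zero, coeff_zero_reverse]
    simp [hldef]
  have hf0 : aeval (0 : ℂ) f = b := by
    rw [aeval_def, eval₂_at_zero]
    simp [hb]
  have hUW0 : U 0 = b * l * W 0 := by
    have h3 := hrel 0 (by simp)
    rw [hrev0, hf0] at h3
    linear_combination l * h3 - U 0 * hlC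
  have hmain : c ^ 3 + c ^ 2 ≤ 1 := by
    refine analytic hc0 (fun z => (b * l * κ) * U z) (fun z => κ * W z) (C l * f.reverse) (C b * f)
      ?_ ?_ ?_ (hU.const_smul (b * l * κ : ℂ)) (hW.const_smul κ) ?_ ?_ ?_ ?_ ?_
    · rw [coeff_C_mul, coeff_zero_reverse, ← hldef, hll]
    · rw [coeff_C_mul, ← hb, hbb]
    · intro h3
      have h4 : f.reverse = C (l * b) * f := by
        have h5 : C l * (C l * f.reverse) = C l * (C b * f) := by rw [h3]
        rw [← mul_assoc, ← C_mul, hll, C_1, one_mul, ← mul_assoc, ← C_mul] at h5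
        exact h5
      rcases (abs_eq (by norm_num : (0:ℤ) ≤ 1)).1 hl with h5 | h5 <;>
        rcases (abs_eq (by norm_num : (0:ℤ) ≤ 1)).1 hc with h6 | h6 <;>
        rw [h5, h6] at h4 <;> norm_num at h4
      · exact h1 h4
      · exact h2 h4
      · exact h2 h4
      · exact h1 h4
    · intro z hz
      rw [norm_mul, norm_mul, norm_mul, hbn, hln, hκn, hU1 z hz]
      norm_num
    · intro z hz
      rw [norm_mul, hκn, hW1 z hz]
      norm_num
    · rw [hUW0]
      linear_combination (b : ℂ) * b * l * l * hκW + (c : ℂ) * l * l * hbC + (c : ℂ) * hlC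
    · exact hκW
    · intro z hz
      have hz1 : ‖z‖ ≤ 1 := by
        have : ‖z‖ = 1 := by simpa using hz
        exact this.le
      have h3 := hrel z hz1
      have e1 : ∀ (m : ℤ) (p : ℤ[X]), aeval z (C m * p) = (m : ℂ) * aeval z p := by
        intro m p
        rw [map_mul, aeval_C]
        simp
      rw [e1, e1]
      linear_combination (b : ℂ) * l * l * κ * h3 + b * κ * W z * aeval z f * hlC
  -- `c = 1 / M`
  set M := mahlerMeasureZ f with hM
  have hM0 : 0 < M := by linarith
  have hcM : c = 1 / M := by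
    rw [eq_div_iff hM0.ne']
    exact hWM
  rw [hcM] at hmain
  have h3 : (1 / M) ^ 3 + (1 / M) ^ 2 = (1 + M) / M ^ 3 := by
    field_simp
  rw [h3, div_le_one (by positivity)] at hmain
  linarith

end Pool.Agent.H95.Smyth
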