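import Pool.Agent.H95.Smyth.Core
import Pool.Agent.H25.Smyth

/-!
# Smyth's theorem: coefficients of bounded analytic functions
-/

set_option autoImplicit false

namespace Pool.Agent.H95.Smyth

open Polynomial Metric Real
open Pool.Agent.H25 (circ_int avg_re avg_const_mul)

/-- Taylor coefficient -/
noncomputable def tc (h : ℂ → ℂ) (n : ℕ) : ℂ := circleAverage (fun z => h z / z ^ n) 0 1

theorem ne_zero_of_sphere {z : ℂ} (hz : z ∈ sphere (0 : ℂ) 1) : z ≠ 0 := by
  intro h0
  rw [h0] at hz
  simp at hz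

theorem cont_sphere {h : ℂ → ℂ} (hd : DiffContOnCl ℂ h (ball 0 1)) :
    ContinuousOn h (sphere 0 1) := hd.continuousOn_ball.mono sphere_subset_closedBall

theorem cont_div {h : ℂ → ℂ} (hc : ContinuousOn h (sphere 0 1)) (n : ℕ) :
    ContinuousOn (fun z => h z / z ^ n) (sphere 0 1) :=
  hc.div (continuousOn_id.pow n) (fun _ hz => pow_ne_zero _ (ne_zero_of_sphere hz))

theorem tc_zero {h : ℂ → ℂ} (hd : DiffContOnCl ℂ h (ball 0 1)) : tc h 0 = h 0 := by
  have hd' : DiffContOnCl ℂ h (ball 0 |1|) := by rwa [abs_one]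
  rw [tc]
  simp only [pow_zero, div_one]
  exact hd'.circleAverage

/-- the coefficients of `h z * z ^ m` -/
theorem tc_mul_pow {h : ℂ → ℂ} (hd : DiffContOnCl ℂ h (ball 0 1)) (m N : ℕ) :
    circleAverage (fun z => h z * z ^ m / z ^ N) 0 1 = if m ≤ N then tc h (N - m) else 0 := by
  split_ifs with hmN
  · rw [tc]
    apply circleAverage_congr_sphere
    intro z hz
    rw [abs_one] at hz
    have hz0 := ne_zero_of_sphere hz
    have e : z ^ N = z ^ (N - m) * z ^ m := by rw [← pow_add, Nat.sub_add_cancel hmN]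
    simp only
    rw [e]
    field_simp
  · have hlt : N < m := not_le.1 hmN
    have hd2 : DiffContOnCl ℂ (fun z => h z * z ^ (m - N)) (ball 0 1) := by
      have h2 : DiffContOnCl ℂ (fun z : ℂ => z ^ (m - N)) (ball 0 1) := by
        apply Differentiable.diffContOnCl
        fun_prop
      simpa [smul_eq_mul] using hd.smul h2
    have hd' : DiffContOnCl ℂ (fun z => h z * z ^ (m - N)) (ball 0 |1|) := by rwa [abs_one]
    have e : circleAverage (fun z => h z * z ^ m / z ^ N) 0 1 =
        circleAverage (fun z => h z * z ^ (m - N)) 0 1 := by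
      apply circleAverage_congr_sphere
      intro z hz
      rw [abs_one] at hz
      have hz0 := ne_zero_of_sphere hz
      have e : z ^ m = z ^ (m - N) * z ^ N := by rw [← pow_add, Nat.sub_add_cancel hlt.le]
      simp only
      rw [e]
      field_simp
    rw [e, hd'.circleAverage, zero_pow (by omega), mul_zero]

/-- Parseval for a polynomial -/
theorem parseval {r : ℕ} (n : Fin r → ℕ) (hn : Function.Injective n) (v : Fin r → ℝ) :
    circleAverage (fun z : ℂ => ‖∑ i, (v i : ℂ) * z ^ n i‖ ^ 2) 0 1 ≤ ∑ i, v i ^ 2 := by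
  classical
  set p : ℂ[X] := ∑ i, monomial (n i) (v i : ℂ) with hp
  have he : ∀ z : ℂ, p.eval z = ∑ i, (v i : ℂ) * z ^ n i := by
    intro z
    rw [hp, eval_finsetSum]
    exact Finset.sum_congr rfl fun i _ => by rw [eval_monomial]
  have h1 := p.sum_sq_norm_coeff_eq_circleAverage
  simp only [he] at h1
  rw [← h1]
  have hco : ∀ i, p.coeff (n i) = (v i : ℂ) := by
    intro i
    rw [hp, finsetSum_coeff, Finset.sum_eq_single i]
    · rw [coeff_monomial, if_pos rfl]
    · intro j _ hj
      rw [coeff_monomial, if_neg fun h => hj (hn h)]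
    · intro h
      exact absurd (Finset.mem_univ i) h
  have hsub : p.support ⊆ Finset.univ.image n := by
    intro m hm
    by_contra h2
    apply mem_support_iff.1 hm
    rw [hp, finsetSum_coeff]
    refine Finset.sum_eq_zero fun i _ => ?_
    rw [coeff_monomial, if_neg]
    intro h3
    exact h2 (Finset.mem_image.2 ⟨i, Finset.mem_univ i, h3⟩)
  calc ∑ m ∈ p.support, ‖p.coeff m‖ ^ 2 ≤ ∑ m ∈ Finset.univ.image n, ‖p.coeff m‖ ^ 2 :=
        Finset.sum_le_sum_of_subset_of_nonneg hsub fun _ _ _ => by positivity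
    _ = ∑ i, ‖p.coeff (n i)‖ ^ 2 := Finset.sum_image fun i _ j _ h => hn h
    _ = ∑ i, v i ^ 2 := by
        refine Finset.sum_congr rfl fun i _ => ?_
        rw [hco, Complex.norm_real, Real.norm_eq_abs, sq_abs]

/-- **The coefficient inequalities.** -/
theorem ineq_of_bound {h : ℂ → ℂ} (hd : DiffContOnCl ℂ h (ball 0 1))
    (h1 : ∀ z ∈ sphere (0 : ℂ) 1, ‖h z‖ ≤ 1) : Ineq (fun n => (tc h n).re) := by
  intro r n hn v N
  set p : ℂ → ℂ := fun z => ∑ i, (v i : ℂ) * z ^ n i with hp
  have hpc : Continuous p := by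
    rw [hp]
    fun_prop
  have hhc := cont_sphere hd
  set F : ℂ → ℂ := fun z => h z * (p z * p z) / z ^ N with hF
  have hFc : ContinuousOn F (sphere 0 1) :=
    cont_div (hhc.mul ((hpc.mul hpc).continuousOn)) N
  -- expansion
  have e1 : circleAverage F 0 1 = ∑ i, ∑ j, ((v i * v j : ℝ) : ℂ) *
      (if n i + n j ≤ N then tc h (N - (n i + n j)) else 0) := by
    have e2 : F = fun z => ∑ i, ∑ j, ((v i * v j : ℝ) : ℂ) * (h z * z ^ (n i + n j) / z ^ N) := by
      funext z
      simp only [hF, hp]
      rw [Finset.sum_mul_sum, Finset.mul_sum, Finset.sum_div]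
      refine Finset.sum_congr rfl fun i _ => ?_
      rw [Finset.mul_sum, Finset.sum_div]
      refine Finset.sum_congr rfl fun j _ => ?_
      push_cast
      rw [pow_add]
      ring
    have hci : ∀ m : ℕ, ContinuousOn (fun z => h z * z ^ m / z ^ N) (sphere 0 1) := fun m =>
      cont_div (hhc.mul (continuous_pow m).continuousOn) N
    rw [e2, circleAverage_fun_sum]
    · refine Finset.sum_congr rfl fun i _ => ?_
      rw [circleAverage_fun_sum]
      · refine Finset.sum_congr rfl fun j _ => ?_
        rw [avg_const_mul, tc_mul_pow hd]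
      · intro j _
        exact circ_int (continuousOn_const.mul (hci _))
    · intro i _
      apply circ_int
      exact continuousOn_finsetSum _ fun j _ => continuousOn_const.mul (hci _)
  have e3 : ∑ i, ∑ j, v i * v j * (if n i + n j ≤ N then (tc h (N - (n i + n j))).re else 0) =
      circleAverage (fun z => (F z).re) 0 1 := by
    rw [avg_re F hFc, e1, Complex.re_sum]
    refine Finset.sum_congr rfl fun i _ => ?_
    rw [Complex.re_sum]
    refine Finset.sum_congr rfl fun j _ => ?_
    rw [Complex.re_ofReal_mul]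
    split_ifs <;> simp
  rw [e3]
  refine abs_circleAverage_le_circleAverage_abs.trans ((circleAverage_mono ?_ ?_ ?_).trans
    (parseval n hn v))
  · have : ContinuousOn (fun z => |(F z).re|) (sphere 0 1) :=
      (Complex.continuous_re.comp_continuousOn hFc).abs
    exact this.circleIntegrable zero_le_one
  · have : ContinuousOn (fun z : ℂ => ‖∑ i, (v i : ℂ) * z ^ n i‖ ^ 2) (sphere 0 1) :=
      (hpc.norm.pow 2).continuousOn
    exact this.circleIntegrable zero_le_one
  · intro z hz
    rw [abs_one] at hz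
    have hzn : ‖z‖ = 1 := by simpa using hz
    simp only [Pi.abs_apply]
    refine (Complex.abs_re_le_norm _).trans ?_
    simp only [hF]
    rw [norm_div, norm_pow, hzn, one_pow, div_one, norm_mul, norm_mul, ← pow_two]
    have h2 := h1 z hz
    have h3 : 0 ≤ ‖p z‖ ^ 2 := by positivity
    calc ‖h z‖ * ‖p z‖ ^ 2 ≤ 1 * ‖p z‖ ^ 2 := mul_le_mul_of_nonneg_right h2 h3
      _ = ‖∑ i, (v i : ℂ) * z ^ n i‖ ^ 2 := by rw [one_mul]

/-- power series of the coefficients -/
noncomputable def ps (h : ℂ → ℂ) : PowerSeries ℂ := PowerSeries.mk (tc h)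

/-- the coefficients of a product with a polynomial -/
theorem tc_mul_poly {h : ℂ → ℂ} (hd : DiffContOnCl ℂ h (ball 0 1)) (g : ℤ[X]) (N : ℕ) :
    circleAverage (fun z => h z * aeval z g / z ^ N) 0 1 =
      PowerSeries.coeff N (ps h * ((g.map (Int.castRingHom ℂ) : ℂ[X]) : PowerSeries ℂ)) := by
  have hhc := cont_sphere hd
  have hci : ∀ m : ℕ, ContinuousOn (fun z => h z * z ^ m / z ^ N) (sphere 0 1) := fun m =>
    cont_div (hhc.mul (continuous_pow m).continuousOn) N
  have e2 : (fun z => h z * aeval z g / z ^ N) =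
      fun z => ∑ m ∈ Finset.range (g.natDegree + 1),
        (g.coeff m : ℂ) * (h z * z ^ m / z ^ N) := by
    funext z
    rw [aeval_eq_sum_range, Finset.mul_sum, Finset.sum_div]
    refine Finset.sum_congr rfl fun m _ => ?_
    rw [zsmul_eq_mul]
    ring
  rw [e2, circleAverage_fun_sum]
  swap
  · intro m _
    exact circ_int (continuousOn_const.mul (hci _))
  have e3 : ∀ m ∈ Finset.range (g.natDegree + 1),
      circleAverage (fun z => (g.coeff m : ℂ) * (h z * z ^ m / z ^ N)) 0 1 =
      (g.coeff m : ℂ) * (if m ≤ N then tc h (N - m) else 0) := by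
    intro m _
    rw [avg_const_mul, tc_mul_pow hd]
  rw [Finset.sum_congr rfl e3, mul_comm (ps h), PowerSeries.coeff_mul,
    Finset.Nat.sum_antidiagonal_eq_sum_range_succ
      (fun i j => PowerSeries.coeff i ((g.map (Int.castRingHom ℂ) : ℂ[X]) : PowerSeries ℂ) *
        PowerSeries.coeff j (ps h))]
  have e4 : ∀ m, PowerSeries.coeff m ((g.map (Int.castRingHom ℂ) : ℂ[X]) : PowerSeries ℂ) =
      (g.coeff m : ℂ) := by
    intro m
    rw [Polynomial.coeff_coe, coeff_map]
    simp
  simp only [e4, ps, PowerSeries.coeff_mk]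
  -- both sums over a common range
  set M := max (g.natDegree + 1) N.succ with hM
  have s1 : ∑ m ∈ Finset.range (g.natDegree + 1), (g.coeff m : ℂ) *
      (if m ≤ N then tc h (N - m) else 0) =
      ∑ m ∈ Finset.range M, (g.coeff m : ℂ) * (if m ≤ N then tc h (N - m) else 0) := by
    apply Finset.sum_subset (Finset.range_mono (le_max_left _ _))
    intro m _ hm
    rw [Finset.mem_range, not_lt] at hm
    rw [coeff_eq_zero_of_natDegree_lt (by omega)]
    simp
  have s2 : ∑ m ∈ Finset.range N.succ, (g.coeff m : ℂ) * tc h (N - m) =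
      ∑ m ∈ Finset.range M, (g.coeff m : ℂ) * (if m ≤ N then tc h (N - m) else 0) := by
    have s3 : ∑ m ∈ Finset.range N.succ, (g.coeff m : ℂ) * tc h (N - m) =
        ∑ m ∈ Finset.range N.succ, (g.coeff m : ℂ) * (if m ≤ N then tc h (N - m) else 0) := by
      refine Finset.sum_congr rfl fun m hm => ?_
      rw [if_pos (by have := Finset.mem_range.1 hm; omega)]
    rw [s3]
    apply Finset.sum_subset (Finset.range_mono (le_max_right _ _))
    intro m _ hm
    rw [Finset.mem_range, not_lt] at hm
    rw [if_neg (by omega), mul_zero]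
  rw [s1, s2]

/-- **The analytic part of Smyth's theorem.** -/
theorem analytic {c : ℝ} (hc0 : 0 < c) (U W : ℂ → ℂ) (g h : ℤ[X]) (hg : g.coeff 0 = 1)
    (hh : h.coeff 0 = 1) (hgh : g ≠ h) (hU : DiffContOnCl ℂ U (ball 0 1))
    (hW : DiffContOnCl ℂ W (ball 0 1)) (hU1 : ∀ z ∈ sphere (0 : ℂ) 1, ‖U z‖ = 1)
    (hW1 : ∀ z ∈ sphere (0 : ℂ) 1, ‖W z‖ = 1) (hU0 : U 0 = c) (hW0 : W 0 = c)
    (hrel : ∀ z ∈ sphere (0 : ℂ) 1, U z * aeval z g = W z * aeval z h) :
    c ^ 3 + c ^ 2 ≤ 1 := by
  -- power series identity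
  have key : ps U * ((g.map (Int.castRingHom ℂ) : ℂ[X]) : PowerSeries ℂ) =
      ps W * ((h.map (Int.castRingHom ℂ) : ℂ[X]) : PowerSeries ℂ) := by
    ext N
    rw [← tc_mul_poly hU, ← tc_mul_poly hW]
    apply circleAverage_congr_sphere
    intro z hz
    rw [abs_one] at hz
    simp only
    rw [hrel z hz]
  -- the integral power series
  set G : PowerSeries ℤ := (g : PowerSeries ℤ) with hG
  set H : PowerSeries ℤ := (h : PowerSeries ℤ) with hH
  have hG0 : PowerSeries.constantCoeff G = ((1 : ℤˣ) : ℤ) := by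
    rw [hG, ← PowerSeries.coeff_zero_eq_constantCoeff_apply, Polynomial.coeff_coe, hg]
    simp
  set A : PowerSeries ℤ := H * PowerSeries.invOfUnit G 1 with hA
  have hAG : A * G = H := by
    rw [hA, mul_assoc, mul_comm (PowerSeries.invOfUnit G 1) G, PowerSeries.mul_invOfUnit G 1 hG0,
      mul_one]
  have hmap : ∀ f : ℤ[X], ((f.map (Int.castRingHom ℂ) : ℂ[X]) : PowerSeries ℂ) =
      PowerSeries.map (Int.castRingHom ℂ) (f : PowerSeries ℤ) := by
    intro f
    ext n
    rw [Polynomial.coeff_coe, coeff_map, PowerSeries.coeff_map, Polynomial.coeff_coe]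
  have hUA : ps U = PowerSeries.map (Int.castRingHom ℂ) A * ps W := by
    rw [hmap, hmap, ← hG, ← hH, ← hAG, map_mul] at key
    have hne : PowerSeries.map (Int.castRingHom ℂ) G ≠ 0 := by
      intro h0
      have h1 := congrArg (PowerSeries.coeff 0) h0
      rw [PowerSeries.coeff_map, hG, Polynomial.coeff_coe, hg] at h1
      simp at h1
    have h2 : ps U * PowerSeries.map (Int.castRingHom ℂ) G =
        (PowerSeries.map (Int.castRingHom ℂ) A * ps W) * PowerSeries.map (Int.castRingHom ℂ) G := by
      rw [key]; ring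
    exact mul_right_cancel₀ hne h2
  -- the first coefficient
  have hA0 : PowerSeries.coeff 0 A = 1 := by
    have h1 := congrArg PowerSeries.constantCoeff hAG
    rw [map_mul, ← PowerSeries.coeff_zero_eq_constantCoeff_apply,
      ← PowerSeries.coeff_zero_eq_constantCoeff_apply,
      ← PowerSeries.coeff_zero_eq_constantCoeff_apply, hG, hH, Polynomial.coeff_coe,
      Polynomial.coeff_coe, hg, hh, mul_one] at h1
    exact h1
  have hA1 : ∃ j, 0 < j ∧ PowerSeries.coeff j A ≠ 0 := by
    by_contra hcon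
    push Not at hcon
    have h1 : A = 1 := by
      ext n
      rcases Nat.eq_zero_or_pos n with rfl | hn
      · rw [hA0]; simp
      · rw [hcon n hn, PowerSeries.coeff_one, if_neg hn.ne']
    rw [h1, one_mul] at hAG
    apply hgh
    rw [hG, hH] at hAG
    exact Polynomial.coe_injective _ hAG
  classical
  set k := Nat.find hA1 with hk
  have hk1 := Nat.find_spec hA1
  have hkmin : ∀ j, 0 < j → j < k → PowerSeries.coeff j A = 0 := by
    intro j hj hjk
    have h1 := Nat.find_min hA1 hjk
    by_contra h2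
    exact h1 ⟨hj, h2⟩
  refine core hc0 (fun n => (tc U n).re) (fun n => (tc W n).re) (fun n => PowerSeries.coeff n A)
    hk1.1 ?_ ?_ hA0 hkmin hk1.2 ?_ (ineq_of_bound hU fun z hz => (hU1 z hz).le)
    (ineq_of_bound hW fun z hz => (hW1 z hz).le)
  · rw [tc_zero hU, hU0, Complex.ofReal_re]
  · rw [tc_zero hW, hW0, Complex.ofReal_re]
  · intro n
    have h1 := congrArg (PowerSeries.coeff n) hUA
    rw [PowerSeries.coeff_mul] at h1
    simp only [ps, PowerSeries.coeff_mk, PowerSeries.coeff_map] at h1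
    rw [h1, Complex.re_sum]
    refine Finset.sum_congr rfl fun q _ => ?_
    simp

end Pool.Agent.H95.Smyth
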