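import Mathlib

/-!
# Smyth's theorem: the algebraic core

`e`, `d` are the real parts of the coefficients of two functions `U`, `W` of modulus one on the unit
circle with `U = W (1 + a_k z^k + ...)`, `a_i` integers, `U(0) = W(0) = c > 0`.
The only analytic input is `Ineq`: `|∑ v_i v_j h_{N - n_i - n_j}| ≤ ∑ v_i^2`.
Conclusion: `c^3 + c^2 ≤ 1`.
-/

set_option autoImplicit false

namespace Pool.Agent.H95.Smyth

/-- the inequalities for the coefficients of a function bounded by one -/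
def Ineq (h : ℕ → ℝ) : Prop :=
  ∀ (r : ℕ) (n : Fin r → ℕ), Function.Injective n → ∀ (v : Fin r → ℝ) (N : ℕ),
    |∑ i, ∑ j, v i * v j * (if n i + n j ≤ N then h (N - (n i + n j)) else 0)| ≤ ∑ i, v i ^ 2

theorem Ineq.one {h : ℕ → ℝ} (H : Ineq h) {n : ℕ} (hn : 0 < n) : |h n| ≤ 1 - h 0 ^ 2 := by
  have inj : Function.Injective (![0, n] : Fin 2 → ℕ) := by
    intro i j
    fin_cases i <;> fin_cases j <;> simp <;> omega
  have key : ∀ v0 v1 : ℝ, |v0 ^ 2 * h n + 2 * v0 * v1 * h 0| ≤ v0 ^ 2 + v1 ^ 2 := by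
    intro v0 v1
    have := H 2 ![0, n] inj ![v0, v1] n
    simp only [Fin.sum_univ_two, Matrix.cons_val_zero, Matrix.cons_val_one, Matrix.cons_val_fin_one]
      at this
    have h1 : ¬ (n + n ≤ n) := by omega
    simp only [add_zero, zero_add, Nat.zero_le, if_true, le_refl, h1, if_false, Nat.sub_zero,
      Nat.sub_self, mul_zero] at this
    have e : v0 ^ 2 * h n + 2 * v0 * v1 * h 0 =
      v0 * v0 * h n + v0 * v1 * h 0 + v1 * v0 * h 0 := by ring
    rw [e]
    exact this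
  rw [abs_le]
  have h1 := (abs_le.1 (key 1 (h 0))).2
  have h2 := (abs_le.1 (key 1 (-h 0))).1
  constructor <;> nlinarith

theorem Ineq.three {h : ℕ → ℝ} (H : Ineq h) {k : ℕ} (hk : 0 < k) (v0 v1 v2 : ℝ) :
    |v0 ^ 2 * h (2 * k) + 2 * v0 * v1 * h k + (v1 ^ 2 + 2 * v0 * v2) * h 0| ≤
      v0 ^ 2 + v1 ^ 2 + v2 ^ 2 := by
  have inj : Function.Injective (![0, k, 2 * k] : Fin 3 → ℕ) := by
    intro i j
    fin_cases i <;> fin_cases j <;> simp <;> omega
  have := H 3 ![0, k, 2 * k] inj ![v0, v1, v2] (2 * k)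
  simp only [Fin.sum_univ_three, Matrix.cons_val_zero, Matrix.cons_val_one, Matrix.cons_val] at this
  have h1 : ¬ (k + 2 * k ≤ 2 * k) := by omega
  have h2 : ¬ (2 * k + k ≤ 2 * k) := by omega
  have h3 : ¬ (2 * k + 2 * k ≤ 2 * k) := by omega
  have h4 : k + k ≤ 2 * k := by omega
  have h5 : k ≤ 2 * k := by omega
  have h6 : 2 * k - (k + k) = 0 := by omega
  have h7 : 2 * k - k = k := by omega
  simp only [add_zero, zero_add, Nat.zero_le, if_true, le_refl, h1, h2, h3, h4, h5, h6, h7,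
    if_false, Nat.sub_zero, Nat.sub_self, mul_zero] at this
  have e : v0 ^ 2 * h (2 * k) + 2 * v0 * v1 * h k + (v1 ^ 2 + 2 * v0 * v2) * h 0 =
      v0 * v0 * h (2 * k) + v0 * v1 * h k + v0 * v2 * h 0 + (v1 * v0 * h k + v1 * v1 * h 0) +
        v2 * v0 * h 0 := by ring
  rw [e]
  exact this

theorem Ineq.four {h : ℕ → ℝ} (H : Ineq h) {k l : ℕ} (hl : 0 < l) (hlk : l < k)
    (v0 v1 v2 v3 : ℝ) :
    |v0 ^ 2 * h (k + l) + 2 * v0 * v1 * h k + 2 * v0 * v2 * h l + v1 ^ 2 * h (k - l) +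
      (2 * v0 * v3 + 2 * v1 * v2) * h 0| ≤ v0 ^ 2 + v1 ^ 2 + v2 ^ 2 + v3 ^ 2 := by
  have inj : Function.Injective (![0, l, k, k + l] : Fin 4 → ℕ) := by
    intro i j
    fin_cases i <;> fin_cases j <;> simp <;> omega
  have := H 4 ![0, l, k, k + l] inj ![v0, v1, v2, v3] (k + l)
  simp only [Fin.sum_univ_four, Matrix.cons_val_zero, Matrix.cons_val_one, Matrix.cons_val] at this
  have h1 : ¬ (l + (k + l) ≤ k + l) := by omega
  have h2 : ¬ (k + k ≤ k + l) := by omega
  have h3 : ¬ (k + (k + l) ≤ k + l) := by omega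
  have h4 : ¬ (k + l + l ≤ k + l) := by omega
  have h5 : ¬ (k + l + k ≤ k + l) := by omega
  have h6 : ¬ (k + l + (k + l) ≤ k + l) := by omega
  have h7 : l ≤ k + l := by omega
  have h8 : k ≤ k + l := by omega
  have h9 : l + l ≤ k + l := by omega
  have h10 : l + k ≤ k + l := by omega
  have h11 : k + l - l = k := by omega
  have h12 : k + l - k = l := by omega
  have h13 : k + l - (l + l) = k - l := by omega
  have h14 : k + l - (l + k) = 0 := by omega
  simp only [add_zero, zero_add, Nat.zero_le, if_true, le_refl, h1, h2, h3, h4, h5, h6, h7, h8, h9,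
    h10, h11, h12, h13, h14, if_false, Nat.sub_zero, Nat.sub_self, mul_zero] at this
  have e : v0 ^ 2 * h (k + l) + 2 * v0 * v1 * h k + 2 * v0 * v2 * h l + v1 ^ 2 * h (k - l) +
      (2 * v0 * v3 + 2 * v1 * v2) * h 0 =
      v0 * v0 * h (k + l) + v0 * v1 * h k + v0 * v2 * h l + v0 * v3 * h 0 +
        (v1 * v0 * h k + v1 * v1 * h (k - l) + v1 * v2 * h 0) +
        (v2 * v0 * h l + v2 * v1 * h 0) + v3 * v0 * h 0 := by ring
  rw [e]
  exact this

/-- second coefficient -/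
theorem Ineq.second {h : ℕ → ℝ} (H : Ineq h) {k : ℕ} (hk : 0 < k) (h0 : 0 < h 0) (h1 : h 0 < 1) :
    h k ^ 2 ≤ (1 - h 0) * (1 - h 0 ^ 2 - h (2 * k)) ∧
      h k ^ 2 ≤ (1 + h 0) * (1 - h 0 ^ 2 + h (2 * k)) := by
  set c := h 0 with hc
  have hp : 0 < 1 - c := by linarith
  have hp' : 0 < 1 + c := by linarith
  constructor
  · have h2 := (abs_le.1 (H.three hk (1 - c) (h k) (c * (1 - c)))).2
    rw [← hc] at h2
    have h3 : (1 - c) * (h k ^ 2) ≤ (1 - c) * ((1 - c) * (1 - c ^ 2 - h (2 * k))) := by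
      nlinarith
    exact le_of_mul_le_mul_left h3 hp
  · have h2 := (abs_le.1 (H.three hk (1 + c) (-h k) (-(c * (1 + c))))).1
    rw [← hc] at h2
    have h3 : (1 + c) * (h k ^ 2) ≤ (1 + c) * ((1 + c) * (1 - c ^ 2 + h (2 * k))) := by
      nlinarith
    exact le_of_mul_le_mul_left h3 hp'

/-- the optimum in the inequality for the intermediate coefficients -/
theorem step2 {c δ t : ℝ} (hc0 : 0 < c) (hc1 : c < 1)
    (H : ∀ v0 v1 v2 v3 : ℝ, |v0 ^ 2 * (δ + t) + 2 * v0 * v1 * c + 4 * v0 * v2 * δ +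
      4 * v0 * v3 * c + 4 * v1 * v2 * c| ≤ 2 * (v0 ^ 2 + v1 ^ 2 + v2 ^ 2 + v3 ^ 2)) :
    |(1 + c ^ 2) * δ + (1 - c ^ 2) * t| ≤ 2 * ((1 - c ^ 2) ^ 2 - δ ^ 2) - c ^ 2 / 2 := by
  have hq : 0 < 1 - c ^ 2 := by nlinarith
  rw [abs_le]
  constructor
  · have h1 := (abs_le.1 (H (2 * (1 - c ^ 2)) (c * (2 * δ - 1))
      (-(2 * (1 - c ^ 2) * δ + c * (c * (2 * δ - 1)))) (-(2 * (1 - c ^ 2) * c)))).1
    have h2 : (4 * (1 - c ^ 2)) * -(2 * ((1 - c ^ 2) ^ 2 - δ ^ 2) - c ^ 2 / 2) ≤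
        (4 * (1 - c ^ 2)) * ((1 + c ^ 2) * δ + (1 - c ^ 2) * t) := by
      linear_combination h1
    exact le_of_mul_le_mul_left h2 (by linarith)
  · have h1 := (abs_le.1 (H (2 * (1 - c ^ 2)) (c * (1 + 2 * δ))
      (2 * (1 - c ^ 2) * δ + c * (c * (1 + 2 * δ))) (2 * (1 - c ^ 2) * c))).2
    have h2 : (4 * (1 - c ^ 2)) * ((1 + c ^ 2) * δ + (1 - c ^ 2) * t) ≤
        (4 * (1 - c ^ 2)) * (2 * ((1 - c ^ 2) ^ 2 - δ ^ 2) - c ^ 2 / 2) := by
      linear_combination h1
    exact le_of_mul_le_mul_left h2 (by linarith)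


/-- lower bound for `c` -/
theorem c_large {c : ℝ} (hc0 : 0 < c) (h : 1 < c ^ 3 + c ^ 2) : 5697 / 10000 ≤ c ^ 2 := by
  by_contra h1
  rw [not_le] at h1
  have h2 : c < 7548 / 10000 := by
    by_contra h3
    rw [not_lt] at h3
    nlinarith
  nlinarith [sq_nonneg c]

/-- no intermediate coefficient -/
theorem step2' {c δ : ℝ} (hc0 : 0 < c) (hc1 : c < 1) (hc : 5697 / 10000 ≤ c ^ 2) {m : ℤ}
    (hm : m ≠ 0)
    (H : |(1 + c ^ 2) * δ + (1 - c ^ 2) * (m * c)| ≤
      2 * ((1 - c ^ 2) ^ 2 - δ ^ 2) - c ^ 2 / 2) : False := by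
  set q := 1 - c ^ 2 with hq
  have hq0 : 0 < q := by rw [hq]; nlinarith
  have hm1 : (1 : ℝ) ≤ |(m : ℝ)| := by
    have := Int.one_le_abs hm
    exact_mod_cast this
  have h1 : q * c ≤ |q * (m * c)| := by
    rw [abs_mul, abs_mul, abs_of_pos hq0, abs_of_pos hc0]
    have : q * c * 1 ≤ q * c * |(m : ℝ)| := mul_le_mul_of_nonneg_left hm1 (by positivity)
    linarith
  have h2 : |q * (m * c)| ≤ |(1 + c ^ 2) * δ + q * (m * c)| + |(1 + c ^ 2) * δ| := by
    have e : q * (m * c) = ((1 + c ^ 2) * δ + q * (m * c)) - (1 + c ^ 2) * δ := by ring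
    calc |q * (m * c)| = |((1 + c ^ 2) * δ + q * (m * c)) - (1 + c ^ 2) * δ| := by rw [← e]
      _ ≤ _ := abs_sub _ _
  have h3 : |(1 + c ^ 2) * δ| = (1 + c ^ 2) * |δ| := by
    rw [abs_mul, abs_of_pos (by positivity)]
  set t := |δ| with ht
  have ht0 : 0 ≤ t := abs_nonneg _
  have ht2 : δ ^ 2 = t ^ 2 := (sq_abs δ).symm
  rw [ht2] at H
  have h4 : q * c ≤ (1 + c ^ 2) * t + (2 * (q ^ 2 - t ^ 2) - c ^ 2 / 2) := by linarith
  have h5 : 0 ≤ 2 * (q ^ 2 - t ^ 2) - c ^ 2 / 2 := (abs_nonneg _).trans H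
  set A := q ^ 2 - c ^ 2 / 4 with hA
  have hA0 : t ^ 2 ≤ A := by rw [hA]; linarith
  have hA1 : 0 ≤ A := (sq_nonneg t).trans hA0
  set T := Real.sqrt A with hT
  have hT2 : T ^ 2 = A := Real.sq_sqrt hA1
  have hT0 : 0 ≤ T := Real.sqrt_nonneg _
  have htT : t ≤ T := Real.le_sqrt_of_sq_le hA0
  have hqle : q ≤ 4303 / 10000 := by rw [hq]; linarith
  have h6 : T ≤ 1 / 4 := by
    apply Real.sqrt_le_iff.2
    refine ⟨by norm_num, ?_⟩
    rw [hA]
    nlinarith
  have h7 : (1 + c ^ 2) * t + (2 * (q ^ 2 - t ^ 2) - c ^ 2 / 2) ≤ (1 + c ^ 2) * T := by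
    have h8 : 2 * (q ^ 2 - t ^ 2) - c ^ 2 / 2 = 2 * T ^ 2 - 2 * t ^ 2 := by
      rw [hT2, hA]; ring
    rw [h8]
    nlinarith [mul_nonneg (sub_nonneg.2 htT) (by nlinarith : (0 : ℝ) ≤ (1 + c ^ 2) - 2 * (T + t))]
  have h8 : q * c ≤ (1 + c ^ 2) * T := h4.trans h7
  have h9 : (q * c) ^ 2 ≤ ((1 + c ^ 2) * T) ^ 2 := pow_le_pow_left₀ (by positivity) h8 2
  rw [mul_pow, mul_pow, hT2, hA, hq] at h9
  set s := c ^ 2 with hs
  have hs1 : s < 1 := by rw [hs]; nlinarith
  -- `4 (1 - s) (1 - s^3) < s (1 + s)^2`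
  have h10 : 4 * ((1 - s) ^ 2 * (1 + s + s ^ 2)) < s * (1 + s) ^ 2 := by
    nlinarith [mul_nonneg (sub_nonneg.2 hc) (sub_nonneg.2 hs1.le),
      mul_nonneg (mul_nonneg (sub_nonneg.2 hc) (sub_nonneg.2 hs1.le)) (by linarith : (0 : ℝ) ≤ s),
      sq_nonneg (s - 5697 / 10000), sq_nonneg s, sq_nonneg (s ^ 2),
      mul_nonneg (sub_nonneg.2 hc) (sq_nonneg s)]
  nlinarith

/-- the last step -/
theorem step3 {c x y E D : ℝ} {n : ℤ} (hc0 : 0 < c) (hc1 : c < 1) (hc : 1 < c ^ 3 + c ^ 2)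
    (hx : |x| ≤ 1 - c ^ 2) (hy : |y| ≤ 1 - c ^ 2) (hxy : x = y + c)
    (hn : E - D = y + n * c)
    (h1 : x ^ 2 ≤ (1 - c) * (1 - c ^ 2 - E)) (h2 : x ^ 2 ≤ (1 + c) * (1 - c ^ 2 + E))
    (h3 : y ^ 2 ≤ (1 - c) * (1 - c ^ 2 - D)) (h4 : y ^ 2 ≤ (1 + c) * (1 - c ^ 2 + D)) : False := by
  set q := 1 - c ^ 2 with hq
  have hq0 : 0 < q := by rw [hq]; nlinarith
  have hp : 0 < 1 - c := by linarith
  have hp' : 0 < 1 + c := by linarith
  have hqe : q = (1 - c) * (1 + c) := by rw [hq]; ring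
  have hc2 := c_large hc0 hc
  have hc3 : 3 / 4 < c := by nlinarith
  have hy1 : 0 ≤ y + q := by linarith [(abs_le.1 hy).1]
  have hx1 : 0 ≤ q - c - y := by
    have := (abs_le.1 hx).2
    linarith
  -- the bracket
  have hb : 0 ≤ 2 * (1 + c) * (c - q) + (2 * c - 1) * q := by
    have h5 : 0 ≤ c - q := by rw [hq]; nlinarith
    have h6 : 0 ≤ (2 * c - 1) * q := mul_nonneg (by linarith) hq0.le
    have h7 : 0 ≤ 2 * (1 + c) * (c - q) := mul_nonneg (by linarith) h5
    linarith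
  -- upper bound
  have hU : q * (n * c) < q * c := by
    have h5 : q * (n * c) ≤ 2 * q ^ 2 - (1 + c) * x ^ 2 - (1 - c) * y ^ 2 - q * y := by
      have h6 : (1 + c) * x ^ 2 ≤ (1 + c) * ((1 - c) * (q - E)) :=
        mul_le_mul_of_nonneg_left h1 hp'.le
      have h7 : (1 - c) * y ^ 2 ≤ (1 - c) * ((1 + c) * (q + D)) :=
        mul_le_mul_of_nonneg_left h4 hp.le
      have h8 : (1 + c) * ((1 - c) * (q - E)) = q * (q - E) := by rw [hqe]; ring
      have h9 : (1 - c) * ((1 + c) * (q + D)) = q * (q + D) := by rw [hqe]; ring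
      have h10 : n * c = E - D - y := by linarith
      rw [h10]
      nlinarith
    have h6 : 2 * q ^ 2 - (1 + c) * x ^ 2 - (1 - c) * y ^ 2 - q * y - q * c =
        (1 + c) * (1 - c ^ 2 - c ^ 3) - (y + q) * (2 * (1 + c) * (c - q) + (2 * c - 1) * q) -
          2 * (y + q) ^ 2 := by
      rw [hxy, hq]; ring
    have h7 : (1 + c) * (1 - c ^ 2 - c ^ 3) < 0 := mul_neg_of_pos_of_neg hp' (by linarith)
    have h8 := mul_nonneg hy1 hb
    nlinarith [sq_nonneg (y + q)]
  -- lower bound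
  have hL : 0 < q * (n * c) := by
    have h5 : -2 * q ^ 2 + (1 - c) * x ^ 2 + (1 + c) * y ^ 2 - q * y ≤ q * (n * c) := by
      have h6 : (1 - c) * x ^ 2 ≤ (1 - c) * ((1 + c) * (q + E)) :=
        mul_le_mul_of_nonneg_left h2 hp.le
      have h7 : (1 + c) * y ^ 2 ≤ (1 + c) * ((1 - c) * (q - D)) :=
        mul_le_mul_of_nonneg_left h3 hp'.le
      have h8 : (1 - c) * ((1 + c) * (q + E)) = q * (q + E) := by rw [hqe]; ring
      have h9 : (1 + c) * ((1 - c) * (q - D)) = q * (q - D) := by rw [hqe]; ring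
      have h10 : n * c = E - D - y := by linarith
      rw [h10]
      nlinarith
    have h6 : -2 * q ^ 2 + (1 - c) * x ^ 2 + (1 + c) * y ^ 2 - q * y =
        -((1 + c) * (1 - c ^ 2 - c ^ 3)) +
          (q - c - y) * (2 * (1 + c) * (c - q) + (2 * c - 1) * q) + 2 * (q - c - y) ^ 2 := by
      rw [hxy, hq]; ring
    have h7 : (1 + c) * (1 - c ^ 2 - c ^ 3) < 0 := mul_neg_of_pos_of_neg hp' (by linarith)
    have h8 := mul_nonneg hx1 hb
    nlinarith [sq_nonneg (q - c - y)]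
  have hL' : 0 < (n : ℝ) * c := pos_of_mul_pos_right hL hq0.le
  have hU' : (n : ℝ) * c < c := lt_of_mul_lt_mul_left hU hq0.le
  have h5 : (0 : ℝ) < n := pos_of_mul_pos_left hL' hc0.le
  have h6 : (n : ℝ) < 1 := by
    by_contra h7
    rw [not_lt] at h7
    nlinarith
  have h7 : (0 : ℤ) < n := by exact_mod_cast h5
  have h8 : n < (1 : ℤ) := by exact_mod_cast h6
  omega

/-- the sum over the antidiagonal -/
theorem rel_sum {a : ℕ → ℤ} {d : ℕ → ℝ} {k n : ℕ} (hk : 0 < k) (hkn : k < n) (ha0 : a 0 = 1)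
    (h1 : ∀ j, 0 < j → j < n → j ≠ k → a j = 0) :
    ∑ p ∈ Finset.HasAntidiagonal.antidiagonal n, (a p.1 : ℝ) * d p.2 = d n + a k * d (n - k) + a n * d 0 := by
  rw [Finset.Nat.sum_antidiagonal_eq_sum_range_succ (fun i j => (a i : ℝ) * d j)]
  have h2 : ∀ j ∈ Finset.range n.succ, j ∉ ({0, k, n} : Finset ℕ) →
      (a j : ℝ) * d (n - j) = 0 := by
    intro j hj hj'
    simp only [Finset.mem_insert, Finset.mem_singleton, not_or] at hj'
    have h3 : j < n := by
      have := Finset.mem_range.1 hj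
      omega
    rw [h1 j (by omega) h3 hj'.2.1]
    simp
  have h4 : ({0, k, n} : Finset ℕ) ⊆ Finset.range n.succ := by
    intro j hj
    simp only [Finset.mem_insert, Finset.mem_singleton] at hj
    rw [Finset.mem_range]
    omega
  rw [← Finset.sum_subset h4 h2, Finset.sum_insert, Finset.sum_insert, Finset.sum_singleton, ha0]
  · simp only [Int.cast_one, one_mul, Nat.sub_zero, Nat.sub_self]
    ring
  · simp only [Finset.mem_singleton]; omega
  · simp only [Finset.mem_insert, Finset.mem_singleton]; omega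

theorem rel_sum0 {a : ℕ → ℤ} {d : ℕ → ℝ} {n : ℕ} (hn : 0 < n) (ha0 : a 0 = 1)
    (h1 : ∀ j, 0 < j → j < n → a j = 0) :
    ∑ p ∈ Finset.HasAntidiagonal.antidiagonal n, (a p.1 : ℝ) * d p.2 = d n + a n * d 0 := by
  rw [Finset.Nat.sum_antidiagonal_eq_sum_range_succ (fun i j => (a i : ℝ) * d j)]
  have h2 : ∀ j ∈ Finset.range n.succ, j ∉ ({0, n} : Finset ℕ) →
      (a j : ℝ) * d (n - j) = 0 := by
    intro j hj hj'
    simp only [Finset.mem_insert, Finset.mem_singleton, not_or] at hj'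
    have h3 : j < n := by
      have := Finset.mem_range.1 hj
      omega
    rw [h1 j (by omega) h3]
    simp
  have h4 : ({0, n} : Finset ℕ) ⊆ Finset.range n.succ := by
    intro j hj
    simp only [Finset.mem_insert, Finset.mem_singleton] at hj
    rw [Finset.mem_range]
    omega
  rw [← Finset.sum_subset h4 h2, Finset.sum_insert, Finset.sum_singleton, ha0]
  · simp only [Int.cast_one, one_mul, Nat.sub_zero, Nat.sub_self]
  · simp only [Finset.mem_singleton]; omega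

/-- **The algebraic core of Smyth's theorem.** -/
theorem core {c : ℝ} (hc0 : 0 < c) (e d : ℕ → ℝ) (a : ℕ → ℤ) {k : ℕ} (hk : 0 < k)
    (he : e 0 = c) (hd : d 0 = c) (ha0 : a 0 = 1) (ha1 : ∀ j, 0 < j → j < k → a j = 0)
    (hak : a k ≠ 0)
    (rel : ∀ n, e n = ∑ p ∈ Finset.HasAntidiagonal.antidiagonal n, (a p.1 : ℝ) * d p.2)
    (He : Ineq e) (Hd : Ineq d) : c ^ 3 + c ^ 2 ≤ 1 := by
  by_contra hcon
  rw [not_le] at hcon
  have hek := He.one hk
  have hdk := Hd.one hk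
  rw [he] at hek
  rw [hd] at hdk
  -- first relation
  have r1 : e k = d k + a k * c := by rw [rel k, rel_sum0 hk ha0 ha1, hd]
  have hak1 : (1 : ℝ) ≤ |(a k : ℝ)| := by
    have := Int.one_le_abs hak
    exact_mod_cast this
  have hb1 : |(a k : ℝ)| * c ≤ 2 * (1 - c ^ 2) := by
    have h1 : |(a k : ℝ)| * c = |e k - d k| := by
      rw [r1, add_sub_cancel_left, abs_mul, abs_of_pos hc0]
    rw [h1]
    have := abs_sub (e k) (d k)
    linarith
  have hc1 : c < 1 := by nlinarith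
  have hc2 := c_large hc0 hcon
  have hσ : a k = 1 ∨ a k = -1 := by
    have h1 : |(a k : ℝ)| < 2 := by
      by_contra h2
      rw [not_lt] at h2
      nlinarith
    have h2 : |a k| < 2 := by exact_mod_cast h1
    have h3 := Int.one_le_abs hak
    have h4 : |a k| = 1 := by omega
    exact (abs_eq (by norm_num)).1 h4
  -- small coefficients agree
  have hsmall : ∀ l, 0 < l → l < k → e l = d l := by
    intro l hl hlk
    rw [rel l, rel_sum0 hl ha0 (fun j hj hj' => ha1 j hj (by omega)), ha1 l hl hlk]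
    simp
  -- no intermediate coefficients
  have hmid : ∀ l, 0 < l → l < k → a (k + l) = 0 := by
    intro l
    induction l using Nat.strong_induction_on with
    | _ l ih =>
      intro hl hlk
      by_contra hm
      have h1 : ∀ j, 0 < j → j < k + l → j ≠ k → a j = 0 := by
        intro j hj hjk hjne
        rcases lt_or_ge j k with h | h
        · exact ha1 j hj h
        · have h2 := ih (j - k) (by omega) (by omega) (by omega)
          have e1 : k + (j - k) = j := by omega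
          rwa [e1] at h2
      have r2 : e (k + l) = d (k + l) + a k * d l + a (k + l) * c := by
        rw [rel (k + l), rel_sum hk (by omega) ha0 h1, hd]
        have e1 : k + l - k = l := by omega
        rw [e1]
      have hε : e (k - l) = d (k - l) := hsmall (k - l) (by omega) (by omega)
      have hδ : e l = d l := hsmall l hl hlk
      have main : ∀ v0 v1 v2 v3 : ℝ, |v0 ^ 2 * (a k * d l + a (k + l) * c) +
          2 * v0 * v1 * (a k * c) + 4 * v0 * v2 * d l + 4 * v0 * v3 * c + 4 * v1 * v2 * c| ≤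
          2 * (v0 ^ 2 + v1 ^ 2 + v2 ^ 2 + v3 ^ 2) := by
        intro v0 v1 v2 v3
        have h3 := He.four hl hlk v0 v1 v2 v3
        have h4 := Hd.four hl hlk v0 v1 (-v2) (-v3)
        rw [he, r2, r1, hε, hδ] at h3
        rw [hd] at h4
        rw [abs_le] at h3 h4 ⊢
        constructor
        · linarith [h3.1, h4.2, neg_sq v2, neg_sq v3]
        · linarith [h3.2, h4.1, neg_sq v2, neg_sq v3]
      rcases hσ with hσ | hσ
      · apply step2' hc0 hc1 hc2 hm (δ := d l)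
        apply step2 hc0 hc1
        intro v0 v1 v2 v3
        have h3 := main v0 v1 v2 v3
        rw [hσ] at h3
        simp only [Int.cast_one, one_mul] at h3
        exact h3
      · apply step2' hc0 hc1 hc2 (neg_ne_zero.2 hm) (δ := d l)
        apply step2 hc0 hc1
        intro v0 v1 v2 v3
        have h3 := main v0 v1 (-v2) (-v3)
        rw [hσ, ← abs_neg] at h3
        push_cast at h3 ⊢
        rw [neg_sq, neg_sq] at h3
        refine le_trans (le_of_eq ?_) h3
        congr 1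
        ring
  -- the coefficient `2 k`
  have h1 : ∀ j, 0 < j → j < 2 * k → j ≠ k → a j = 0 := by
    intro j hj hjk hjne
    rcases lt_or_ge j k with h | h
    · exact ha1 j hj h
    · have h2 := hmid (j - k) (by omega) (by omega)
      have e1 : k + (j - k) = j := by omega
      rwa [e1] at h2
  have r3 : e (2 * k) = d (2 * k) + a k * d k + a (2 * k) * c := by
    rw [rel (2 * k), rel_sum hk (by omega) ha0 h1, hd]
    have e1 : 2 * k - k = k := by omega
    rw [e1]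
  have se := He.second hk (by rw [he]; exact hc0) (by rw [he]; exact hc1)
  have sd := Hd.second hk (by rw [hd]; exact hc0) (by rw [hd]; exact hc1)
  rw [he] at se
  rw [hd] at sd
  rcases hσ with hσ | hσ
  · rw [hσ] at r1 r3
    push_cast at r1 r3
    exact step3 (n := a (2 * k)) hc0 hc1 hcon hek hdk (by linarith) (by linarith)
      se.1 se.2 sd.1 sd.2
  · rw [hσ] at r1 r3
    push_cast at r1 r3
    refine step3 (n := 1 - a (2 * k)) hc0 hc1 hcon hdk hek (by linarith) ?_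
      sd.1 sd.2 se.1 se.2
    push_cast
    linarith

end Pool.Agent.H95.Smyth
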